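import Mathlib

/-!
# MP_05d661_lc: circle patrolling with visibility radii, equal speeds and two-sided bounds

The optimal idle time `I_opt` of agents with speeds `v i > 0` and visibility radii `ε i ≥ 0` on the circle of
circumference `1` satisfies

`(1 - 2 ∑ ε i) / ∑ v i ≤ I_opt ≤ (1 - 2 ∑_{i ∈ s} ε i) / (#s u)`

(negative values read as `0`) for every nonempty set `s` of agents with speeds at least `u > 0` (rotation), and
`I_opt ≤ 2 (1 - 2 ∑ ε i) / ∑ v i` (every agent goes back and forth on its own segment). Hence the exact value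
`max (0, 1 - 2 ∑ ε i) / (k v)` if all `k` agents have the same speed `v`, for arbitrary radii; and `I_opt = 0` if and only if
`2 ∑ ε i ≥ 1`, for all speeds and radii.
-/

set_option autoImplicit false

open MeasureTheory Metric Finset
open scoped ENNReal

namespace Pool.Agent.Results.MP_05d661_lc.EqualSpeeds

/-- the circle of circumference `1` with the arc-length distance -/
abbrev Circ : Type := AddCircle (1 : ℝ)

/-- `a i : [0, ∞) → C` (the values at negative times play no role) are continuous and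
`d (a i t, a i (t + s)) ≤ v i s` whenever `s > 0` and `v i s < 1 / 2` -/
def IsTraversal {k : ℕ} (v : Fin k → ℝ) (a : Fin k → ℝ → Circ) : Prop :=
  ∀ i, ContinuousOn (a i) (Set.Ici 0) ∧
    ∀ t s : ℝ, 0 ≤ t → 0 < s → v i * s < 1 / 2 → dist (a i t) (a i (t + s)) ≤ v i * s

/-- every time window `[K, K + T]`, `K ≥ 0`, contains a time at which some agent sees `x` -/
def Covers {k : ℕ} (ε : Fin k → ℝ) (a : Fin k → ℝ → Circ) (x : Circ) (T : ℝ) : Prop :=
  ∀ K : ℝ, 0 ≤ K → ∃ t ∈ Set.Icc K (K + T), ∃ i, dist (a i t) x ≤ ε i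

/-- the idle time at `x`: the infimum of the `T > 0` with `Covers ε a x T` (`∞` if there is none) -/
noncomputable def idleAt {k : ℕ} (ε : Fin k → ℝ) (a : Fin k → ℝ → Circ) (x : Circ) : ℝ≥0∞ :=
  ⨅ (T : ℝ) (_ : 0 < T ∧ Covers ε a x T), ENNReal.ofReal T

/-- the idle time of a traversal algorithm -/
noncomputable def idle {k : ℕ} (ε : Fin k → ℝ) (a : Fin k → ℝ → Circ) : ℝ≥0∞ := ⨆ x, idleAt ε a x

/-- the optimal idle time `I_opt(v; ε)` -/
noncomputable def Iopt {k : ℕ} (v ε : Fin k → ℝ) : ℝ≥0∞ :=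
  ⨅ (a : Fin k → ℝ → Circ) (_ : IsTraversal v a), idle ε a

lemma covers_mono {k : ℕ} {ε : Fin k → ℝ} {a : Fin k → ℝ → Circ} {x : Circ} {T T' : ℝ} (h : Covers ε a x T)
    (hT : T ≤ T') : Covers ε a x T' := by
  intro K hK
  obtain ⟨t, ht, i, hi⟩ := h K hK
  exact ⟨t, ⟨ht.1, ht.2.trans (by linarith)⟩, i, hi⟩

lemma dist_le_half (x y : Circ) : dist x y ≤ 1 / 2 := by
  rw [dist_eq_norm]
  have := AddCircle.norm_le_half_period (p := (1 : ℝ)) (x := x - y) one_ne_zero
  simpa using this

lemma dist_coe_le (x y : ℝ) : dist (x : Circ) (y : Circ) ≤ |x - y| := by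
  rw [dist_eq_norm, ← AddCircle.coe_sub]
  exact QuotientAddGroup.norm_mk_le_norm

/-- the positions of an agent in a window `[0, T]` are at distance at most `v T / 2` of the position at the time `T / 2` -/
lemma dist_mid {k : ℕ} {v : Fin k → ℝ} {a : Fin k → ℝ → Circ} (ha : IsTraversal v a) (hv : ∀ i, 0 < v i) (i : Fin k)
    {T t : ℝ} (hT : 0 < T) (ht : t ∈ Set.Icc (0 : ℝ) T) : dist (a i t) (a i (T / 2)) ≤ v i * (T / 2) := by
  by_cases h : v i * (T / 2) < 1 / 2
  · rcases lt_trichotomy t (T / 2) with h1 | h1 | h1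
    · have h2 := (ha i).2 t (T / 2 - t) ht.1 (by linarith)
        (lt_of_le_of_lt (mul_le_mul_of_nonneg_left (by linarith [ht.1]) (hv i).le) h)
      rw [show t + (T / 2 - t) = T / 2 by ring] at h2
      exact h2.trans (mul_le_mul_of_nonneg_left (by linarith [ht.1]) (hv i).le)
    · rw [h1, dist_self]
      have := hv i
      positivity
    · have h2 := (ha i).2 (T / 2) (t - T / 2) (by linarith) (by linarith)
        (lt_of_le_of_lt (mul_le_mul_of_nonneg_left (by linarith [ht.2]) (hv i).le) h)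
      rw [show T / 2 + (t - T / 2) = t by ring, dist_comm] at h2
      exact h2.trans (mul_le_mul_of_nonneg_left (by linarith [ht.2]) (hv i).le)
  · exact (dist_le_half _ _).trans (not_lt.1 h)

lemma lower_real {k : ℕ} {v ε : Fin k → ℝ} {a : Fin k → ℝ → Circ} (ha : IsTraversal v a) (hv : ∀ i, 0 < v i)
    (hε : ∀ i, 0 ≤ ε i) {T : ℝ} (hT : 0 < T) (h : ∀ x, Covers ε a x T) :
    1 - 2 * ∑ i, ε i ≤ (∑ i, v i) * T := by
  have hcov : (Set.univ : Set Circ) ⊆ ⋃ i, closedBall (a i (T / 2)) (v i * (T / 2) + ε i) := by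
    intro x _
    obtain ⟨t, ht, i, hi⟩ := h x 0 le_rfl
    rw [zero_add] at ht
    refine Set.mem_iUnion.2 ⟨i, ?_⟩
    rw [mem_closedBall]
    calc dist x (a i (T / 2)) ≤ dist x (a i t) + dist (a i t) (a i (T / 2)) := dist_triangle _ _ _
      _ ≤ ε i + v i * (T / 2) := add_le_add (by rw [dist_comm]; exact hi) (dist_mid ha hv i hT ht)
      _ = v i * (T / 2) + ε i := add_comm _ _
  have h1 : (1 : ℝ≥0∞) ≤ ∑ i, ENNReal.ofReal (v i * T + 2 * ε i) := by
    calc (1 : ℝ≥0∞) = volume (Set.univ : Set Circ) := by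
          rw [AddCircle.measure_univ, ENNReal.ofReal_one]
      _ ≤ volume (⋃ i, closedBall (a i (T / 2)) (v i * (T / 2) + ε i)) := measure_mono hcov
      _ ≤ ∑ i, volume (closedBall (a i (T / 2)) (v i * (T / 2) + ε i)) := measure_iUnion_fintype_le _ _
      _ ≤ ∑ i, ENNReal.ofReal (v i * T + 2 * ε i) := by
          refine sum_le_sum fun i _ => ?_
          rw [AddCircle.volume_closedBall]
          refine ENNReal.ofReal_le_ofReal ((min_le_right _ _).trans (le_of_eq (by ring)))
  rw [← ENNReal.ofReal_sum_of_nonneg (fun i _ => by have := hv i; have := hε i; positivity)] at h1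
  have h2 : (1 : ℝ) ≤ ∑ i, (v i * T + 2 * ε i) := by
    rw [← ENNReal.ofReal_one] at h1
    exact (ENNReal.ofReal_le_ofReal_iff (sum_nonneg fun i _ => by
      have := hv i; have := hε i; positivity)).1 h1
  rw [sum_add_distrib, ← sum_mul, ← mul_sum] at h2
  linarith

theorem lower {k : ℕ} (hk : 0 < k) {v ε : Fin k → ℝ} (hv : ∀ i, 0 < v i) (hε : ∀ i, 0 ≤ ε i) :
    ENNReal.ofReal ((1 - 2 * ∑ i, ε i) / ∑ i, v i) ≤ Iopt v ε := by
  refine le_iInf fun a => le_iInf fun ha => ?_
  by_contra hlt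
  rw [not_le] at hlt
  obtain ⟨q, hq0, hq1, hq2⟩ := ENNReal.lt_iff_exists_real_btwn.1 hlt
  have hq2' : q < (1 - 2 * ∑ i, ε i) / ∑ i, v i := (ENNReal.ofReal_lt_ofReal_iff_of_nonneg hq0).1 hq2
  have hq : 0 < q := by
    by_contra h0
    have : q = 0 := le_antisymm (not_lt.1 h0) hq0
    rw [this, ENNReal.ofReal_zero] at hq1
    exact not_lt_zero hq1
  have hcov : ∀ x, Covers ε a x q := by
    intro x
    have h1 : idleAt ε a x < ENNReal.ofReal q := lt_of_le_of_lt (le_iSup (fun x => idleAt ε a x) x) hq1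
    unfold idleAt at h1
    simp only [iInf_lt_iff] at h1
    obtain ⟨T, ⟨hT0, hT⟩, hTq⟩ := h1
    exact covers_mono hT ((ENNReal.ofReal_lt_ofReal_iff_of_nonneg hT0.le).1 hTq).le
  have h3 := lower_real ha hv hε hq hcov
  have hne : (Finset.univ : Finset (Fin k)).Nonempty := ⟨⟨0, hk⟩, mem_univ _⟩
  have hvs : 0 < ∑ i, v i := sum_pos (fun i _ => hv i) hne
  rw [lt_div_iff₀ hvs] at hq2'
  linarith [mul_comm q (∑ i, v i)]

/-- consecutive intervals of given lengths -/
lemma place {ι : Type} (w : ι → ℝ) (s : Finset ι) :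
    ∃ P : ι → ℝ, ∀ z, 0 ≤ z → z < ∑ i ∈ s, w i → ∃ i ∈ s, P i ≤ z ∧ z < P i + w i := by
  classical
  induction s using Finset.induction_on with
  | empty => exact ⟨fun _ => 0, fun z h0 h1 => absurd h1 (by simpa using h0)⟩
  | insert a s ha ih =>
    obtain ⟨P, hP⟩ := ih
    refine ⟨Function.update P a (∑ i ∈ s, w i), fun z h0 h1 => ?_⟩
    rw [sum_insert ha] at h1
    by_cases hz : z < ∑ i ∈ s, w i
    · obtain ⟨i, hi, h2, h3⟩ := hP z h0 hz
      have hia : i ≠ a := fun h => ha (h ▸ hi)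
      refine ⟨i, mem_insert_of_mem hi, ?_⟩
      rw [Function.update_of_ne hia]
      exact ⟨h2, h3⟩
    · refine ⟨a, mem_insert_self _ _, ?_⟩
      rw [Function.update_self]
      exact ⟨not_lt.1 hz, by linarith⟩

theorem upper_aux {k : ℕ} {v ε : Fin k → ℝ} (hv : ∀ i, 0 < v i) (hε : ∀ i, 0 ≤ ε i) (s : Finset (Fin k))
    {u T : ℝ} (hu : 0 < u) (hus : ∀ i ∈ s, u ≤ v i) (hT : 0 < T) (h : 1 ≤ ∑ i ∈ s, (2 * ε i + u * T)) :
    Iopt v ε ≤ ENNReal.ofReal T := by
  classical
  obtain ⟨P, hP⟩ := place (fun i => 2 * ε i + u * T) s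
  set a : Fin k → ℝ → Circ := fun i t => if i ∈ s then ((P i + ε i + u * t : ℝ) : Circ) else 0 with ha
  have htr : IsTraversal v a := by
    intro i
    by_cases hi : i ∈ s
    · have e : a i = fun t => ((P i + ε i + u * t : ℝ) : Circ) := by
        funext t
        simp [ha, hi]
      rw [e]
      have hc : Continuous (fun x : ℝ => (x : Circ)) := AddCircle.continuous_mk' 1
      have hl : Continuous (fun t : ℝ => P i + ε i + u * t) := by fun_prop
      refine ⟨(hc.comp hl).continuousOn, ?_⟩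
      intro t r _ hr _
      refine (dist_coe_le _ _).trans ?_
      rw [show P i + ε i + u * t - (P i + ε i + u * (t + r)) = -(u * r) by ring, abs_neg,
        abs_of_pos (by positivity)]
      exact mul_le_mul_of_nonneg_right (hus i hi) hr.le
    · have e : a i = fun _ => (0 : Circ) := by
        funext t
        simp [ha, hi]
      rw [e]
      refine ⟨continuousOn_const, ?_⟩
      intro t r _ hr _
      rw [dist_self]
      have := hv i
      positivity
  have hcov : ∀ x, Covers ε a x T := by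
    intro x K _
    set y : ℝ := toIcoMod (one_pos) (u * K) (Classical.choose (QuotientAddGroup.mk_surjective x)) with hy
    have hxy : (y : Circ) = x := by
      rw [hy]
      have h1 := Classical.choose_spec (QuotientAddGroup.mk_surjective x)
      conv_rhs => rw [← h1]
      unfold toIcoMod
      rw [AddCircle.coe_sub]
      have : ((toIcoDiv (one_pos) (u * K) (Classical.choose (QuotientAddGroup.mk_surjective x)) • (1 : ℝ) : ℝ) : Circ)
          = 0 := by
        rw [AddCircle.coe_zsmul, AddCircle.coe_period, smul_zero]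
      rw [this, sub_zero]
    have hy1 : u * K ≤ y ∧ y < u * K + 1 := by
      have := toIcoMod_mem_Ico (one_pos) (u * K) (Classical.choose (QuotientAddGroup.mk_surjective x))
      exact ⟨this.1, this.2⟩
    obtain ⟨i, hi, h2, h3⟩ := hP (y - u * K) (by linarith) (by
      have : y - u * K < 1 := by linarith
      exact lt_of_lt_of_le this h)
    refine ⟨K + max 0 ((y - u * K - P i - 2 * ε i) / u), ⟨by linarith [le_max_left 0 ((y - u * K - P i - 2 * ε i) / u)],
      ?_⟩, i, ?_⟩
    · have : max 0 ((y - u * K - P i - 2 * ε i) / u) ≤ T := by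
        refine max_le hT.le ?_
        rw [div_le_iff₀ hu]
        linarith [mul_comm u T]
      linarith
    · rw [← hxy]
      simp only [ha, hi, if_true]
      refine (dist_coe_le _ _).trans ?_
      have hεi := hε i
      rcases le_total ((y - u * K - P i - 2 * ε i) / u) 0 with h4 | h4
      · rw [max_eq_left h4]
        have h5 : y - u * K - P i - 2 * ε i ≤ 0 := by
          by_contra h6
          exact absurd h4 (not_le.2 (div_pos (not_le.1 h6) hu))
        rw [abs_le]
        constructor <;> nlinarith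
      · rw [max_eq_right h4]
        have h5 : u * (K + (y - u * K - P i - 2 * ε i) / u) = u * K + (y - u * K - P i - 2 * ε i) := by
          field_simp
        rw [h5, abs_le]
        constructor <;> nlinarith
  refine (iInf₂_le a htr).trans ?_
  refine iSup_le fun x => ?_
  exact iInf₂_le T ⟨hT, hcov x⟩

theorem upper {k : ℕ} {v ε : Fin k → ℝ} (hv : ∀ i, 0 < v i) (hε : ∀ i, 0 ≤ ε i) (s : Finset (Fin k))
    (hs : s.Nonempty) {u : ℝ} (hu : 0 < u) (hus : ∀ i ∈ s, u ≤ v i) :
    Iopt v ε ≤ ENNReal.ofReal ((1 - 2 * ∑ i ∈ s, ε i) / (s.card * u)) := by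
  have hc : (0 : ℝ) < s.card := by exact_mod_cast hs.card_pos
  refine le_of_forall_gt fun b hb => ?_
  obtain ⟨q, hq0, hq1, hq2⟩ := ENNReal.lt_iff_exists_real_btwn.1 hb
  have hq : 0 < q := by
    by_contra h0
    have : q = 0 := le_antisymm (not_lt.1 h0) hq0
    rw [this, ENNReal.ofReal_zero] at hq1
    exact not_lt_zero hq1
  have hq1' : (1 - 2 * ∑ i ∈ s, ε i) / (s.card * u) < q := ((ENNReal.ofReal_lt_ofReal_iff hq).1 hq1)
  refine lt_of_le_of_lt (upper_aux hv hε s hu hus hq ?_) hq2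
  rw [sum_add_distrib, ← mul_sum, sum_const, nsmul_eq_mul]
  rw [div_lt_iff₀ (by positivity)] at hq1'
  nlinarith

/-- a segment patrolled by one agent that goes back and forth -/
lemma zigzag {v ε T P : ℝ} (hv : 0 < v) (hε : 0 ≤ ε) (hT : 0 < T) {K y : ℝ} (h1 : P ≤ y)
    (h2 : y ≤ P + (2 * ε + v * T / 2)) :
    ∃ t ∈ Set.Icc K (K + T), |P + ε + v * T * ‖((t / T : ℝ) : Circ)‖ - y| ≤ ε := by
  set z : ℝ := max 0 (min (y - P - ε) (v * T / 2)) with hz
  have hvT : 0 < v * T := by positivity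
  have hz0 : 0 ≤ z := le_max_left _ _
  have hz1 : z ≤ v * T / 2 := max_le (by positivity) (min_le_right _ _)
  have hzy : |P + ε + z - y| ≤ ε := by
    rw [hz]
    rcases le_total (y - P - ε) (v * T / 2) with h3 | h3
    · rw [min_eq_left h3]
      rcases le_total 0 (y - P - ε) with h4 | h4
      · rw [max_eq_right h4, abs_le]
        constructor <;> linarith
      · rw [max_eq_left h4, abs_le]
        constructor <;> linarith
    · rw [min_eq_right h3, max_eq_right (by positivity), abs_le]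
      constructor <;> linarith
  set r : ℝ := z / (v * T) with hr
  have hr0 : 0 ≤ r := by positivity
  have hr1 : r ≤ 1 / 2 := by
    rw [hr, div_le_iff₀ hvT]
    linarith
  have hrz : v * T * r = z := by
    rw [hr]
    field_simp
  have hm := toIcoMod_mem_Ico (one_pos) (K / T) r
  refine ⟨T * toIcoMod (one_pos) (K / T) r, ⟨?_, ?_⟩, ?_⟩
  · have := mul_le_mul_of_nonneg_left hm.1 hT.le
    rwa [mul_div_cancel₀ K hT.ne'] at this
  · have := mul_le_mul_of_nonneg_left hm.2.le hT.le
    rwa [mul_add, mul_div_cancel₀ K hT.ne', mul_one] at this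
  · rw [mul_div_cancel_left₀ _ hT.ne']
    have e : ((toIcoMod (one_pos) (K / T) r : ℝ) : Circ) = (r : Circ) := by
      unfold toIcoMod
      rw [AddCircle.coe_sub]
      have : ((toIcoDiv (one_pos) (K / T) r • (1 : ℝ) : ℝ) : Circ) = 0 := by
        rw [AddCircle.coe_zsmul, AddCircle.coe_period, smul_zero]
      rw [this, sub_zero]
    have e2 : ‖(r : Circ)‖ = r := by
      rw [(AddCircle.norm_coe_eq_abs_iff (p := (1 : ℝ)) (x := r) one_ne_zero).2 (by
        rw [abs_of_nonneg hr0, abs_one]; exact hr1), abs_of_nonneg hr0]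
    rw [e, e2, hrz]
    exact hzy

theorem upper_aux2 {k : ℕ} {v ε : Fin k → ℝ} (hv : ∀ i, 0 < v i) (hε : ∀ i, 0 ≤ ε i)
    {T : ℝ} (hT : 0 < T) (h : 1 ≤ ∑ i, (2 * ε i + v i * T / 2)) :
    Iopt v ε ≤ ENNReal.ofReal T := by
  classical
  obtain ⟨P, hP⟩ := place (fun i => 2 * ε i + v i * T / 2) (Finset.univ : Finset (Fin k))
  set a : Fin k → ℝ → Circ := fun i t => ((P i + ε i + v i * T * ‖((t / T : ℝ) : Circ)‖ : ℝ) : Circ) with ha
  have htr : IsTraversal v a := by
    intro i
    have hc : Continuous (fun x : ℝ => (x : Circ)) := AddCircle.continuous_mk' 1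
    have hl0 : Continuous (fun t : ℝ => t / T) := by fun_prop
    have hl : Continuous (fun t : ℝ => P i + ε i + v i * T * ‖((t / T : ℝ) : Circ)‖) :=
      continuous_const.add (continuous_const.mul (continuous_norm.comp (hc.comp hl0)))
    refine ⟨(hc.comp hl).continuousOn, ?_⟩
    intro t r _ hr _
    refine (dist_coe_le _ _).trans ?_
    rw [show P i + ε i + v i * T * ‖((t / T : ℝ) : Circ)‖ - (P i + ε i + v i * T * ‖(((t + r) / T : ℝ) : Circ)‖) =
      v i * T * (‖((t / T : ℝ) : Circ)‖ - ‖(((t + r) / T : ℝ) : Circ)‖) by ring, abs_mul,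
      abs_of_pos (mul_pos (hv i) hT)]
    have h1 : |‖((t / T : ℝ) : Circ)‖ - ‖(((t + r) / T : ℝ) : Circ)‖| ≤ r / T := by
      refine (abs_norm_sub_norm_le _ _).trans ?_
      rw [← dist_eq_norm]
      refine (dist_coe_le _ _).trans ?_
      rw [show t / T - (t + r) / T = -(r / T) by ring, abs_neg, abs_of_pos (div_pos hr hT)]
    calc v i * T * |‖((t / T : ℝ) : Circ)‖ - ‖(((t + r) / T : ℝ) : Circ)‖| ≤ v i * T * (r / T) :=
          mul_le_mul_of_nonneg_left h1 (mul_pos (hv i) hT).le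
      _ = v i * r := by field_simp
  have hcov : ∀ x, Covers ε a x T := by
    intro x K _
    set y : ℝ := toIcoMod (one_pos) (0 : ℝ) (Classical.choose (QuotientAddGroup.mk_surjective x)) with hy
    have hxy : (y : Circ) = x := by
      rw [hy]
      have h1 := Classical.choose_spec (QuotientAddGroup.mk_surjective x)
      conv_rhs => rw [← h1]
      unfold toIcoMod
      rw [AddCircle.coe_sub]
      have : ((toIcoDiv (one_pos) (0 : ℝ) (Classical.choose (QuotientAddGroup.mk_surjective x)) • (1 : ℝ) : ℝ) : Circ)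
          = 0 := by
        rw [AddCircle.coe_zsmul, AddCircle.coe_period, smul_zero]
      rw [this, sub_zero]
    have hy1 : 0 ≤ y ∧ y < 0 + 1 := by
      have := toIcoMod_mem_Ico (one_pos) (0 : ℝ) (Classical.choose (QuotientAddGroup.mk_surjective x))
      exact ⟨this.1, this.2⟩
    obtain ⟨i, -, h2, h3⟩ := hP y hy1.1 (lt_of_lt_of_le (by linarith [hy1.2]) h)
    obtain ⟨t, ht, hty⟩ := zigzag (K := K) (hv i) (hε i) hT h2 h3.le
    refine ⟨t, ht, i, ?_⟩
    rw [← hxy]
    exact (dist_coe_le _ _).trans hty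
  refine (iInf₂_le a htr).trans ?_
  refine iSup_le fun x => ?_
  exact iInf₂_le T ⟨hT, hcov x⟩

theorem upper2 {k : ℕ} (hk : 0 < k) {v ε : Fin k → ℝ} (hv : ∀ i, 0 < v i) (hε : ∀ i, 0 ≤ ε i) :
    Iopt v ε ≤ ENNReal.ofReal (2 * (1 - 2 * ∑ i, ε i) / ∑ i, v i) := by
  have hne : (Finset.univ : Finset (Fin k)).Nonempty := ⟨⟨0, hk⟩, mem_univ _⟩
  have hvs : 0 < ∑ i, v i := sum_pos (fun i _ => hv i) hne
  refine le_of_forall_gt fun b hb => ?_
  obtain ⟨q, hq0, hq1, hq2⟩ := ENNReal.lt_iff_exists_real_btwn.1 hb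
  have hq : 0 < q := by
    by_contra h0
    have : q = 0 := le_antisymm (not_lt.1 h0) hq0
    rw [this, ENNReal.ofReal_zero] at hq1
    exact not_lt_zero hq1
  have hq1' : 2 * (1 - 2 * ∑ i, ε i) / ∑ i, v i < q := ((ENNReal.ofReal_lt_ofReal_iff hq).1 hq1)
  refine lt_of_le_of_lt (upper_aux2 hv hε hq ?_) hq2
  rw [sum_add_distrib, ← mul_sum, ← sum_div, ← sum_mul]
  rw [div_lt_iff₀ hvs] at hq1'
  nlinarith

/-- **Main theorem.** Two-sided bounds for the optimal idle time, the exact value for equal speeds and arbitrary radii, and the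
description of the case `I_opt = 0`. -/
theorem result (k : ℕ) (hk : 0 < k) (v ε : Fin k → ℝ) (hv : ∀ i, 0 < v i) (hε : ∀ i, 0 ≤ ε i) :
    ENNReal.ofReal ((1 - 2 * ∑ i, ε i) / ∑ i, v i) ≤ Iopt v ε ∧
    (∀ (s : Finset (Fin k)) (u : ℝ), s.Nonempty → 0 < u → (∀ i ∈ s, u ≤ v i) →
      Iopt v ε ≤ ENNReal.ofReal ((1 - 2 * ∑ i ∈ s, ε i) / (s.card * u))) ∧
    Iopt v ε ≤ ENNReal.ofReal (2 * (1 - 2 * ∑ i, ε i) / ∑ i, v i) ∧
    (∀ u : ℝ, (∀ i, v i = u) → Iopt v ε = ENNReal.ofReal ((1 - 2 * ∑ i, ε i) / (k * u))) ∧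
    (Iopt v ε = 0 ↔ 1 ≤ 2 * ∑ i, ε i) := by
  have hne : (Finset.univ : Finset (Fin k)).Nonempty := ⟨⟨0, hk⟩, mem_univ _⟩
  have hlow := lower hk hv hε
  refine ⟨hlow, fun s u hs hu hus => upper hv hε s hs hu hus, upper2 hk hv hε, ?_, ?_⟩
  · intro u hu
    have hu0 : 0 < u := hu ⟨0, hk⟩ ▸ hv ⟨0, hk⟩
    apply le_antisymm
    · have := upper hv hε univ hne hu0 (fun i _ => (hu i).ge)
      rwa [card_univ, Fintype.card_fin] at this
    · have e : ∑ i, v i = k * u := by
        rw [sum_congr rfl (fun i _ => hu i), sum_const, card_univ, Fintype.card_fin, nsmul_eq_mul]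
      rwa [e] at hlow
  · have hvs : 0 < ∑ i, v i := sum_pos (fun i _ => hv i) hne
    constructor
    · intro h0
      rw [h0, nonpos_iff_eq_zero, ENNReal.ofReal_eq_zero] at hlow
      by_contra h1
      exact absurd hlow (not_le.2 (div_pos (by linarith) hvs))
    · intro h1
      obtain ⟨j, -, hj⟩ := Finset.exists_min_image univ v hne
      have h2 := upper hv hε univ hne (hv j) (fun i _ => hj i (mem_univ i))
      rw [ENNReal.ofReal_of_nonpos] at h2
      · exact nonpos_iff_eq_zero.1 h2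
      · have hvj := hv j
        have hkk : (0 : ℝ) < (Finset.univ : Finset (Fin k)).card := by exact_mod_cast hne.card_pos
        exact div_nonpos_of_nonpos_of_nonneg (by linarith) (by positivity)

end Pool.Agent.Results.MP_05d661_lc.EqualSpeeds
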